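import Pool.Agent.K1H81.DC.Stm

/-!
# The number of the zeros of a form in projective space over a finite field

The bound of Schwartz and Zippel.
-/

set_option autoImplicit false

namespace Pool.Agent.K1H99.DC

open Finset hiding val
open Pool.Agent.Y722.HS
open Pool.Agent.K1H81.HV (KK NV PF DD ev Fr deg)

/-- The exponent of a monomial, as a finitely supported function. -/
noncomputable def expo {n d : ℕ} (m : Mon n d) : Fin (n + 1) →₀ ℕ :=
  Finsupp.equivFunOnFinite.symm (fun i => (m.1 i : ℕ))

theorem form_eq {n d : ℕ} {R : Type*} [CommSemiring R] (c : Mon n d → R) :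
    form c = ∑ m, MvPolynomial.monomial (expo m) (c m) := by
  unfold form expo
  refine Finset.sum_congr rfl fun m _ => ?_
  rw [MvPolynomial.monomial_eq]
  congr 1
  rw [Finsupp.prod_fintype _ _ (fun i => by simp)]
  simp

theorem expo_inj {n d : ℕ} {m m' : Mon n d} (h : expo m = expo m') : m = m' := by
  apply Subtype.ext
  funext i
  apply Fin.ext
  have := DFunLike.congr_fun h i
  simpa [expo] using this

theorem coeff_form {n d : ℕ} {R : Type*} [CommSemiring R] (c : Mon n d → R) (m : Mon n d) :
    MvPolynomial.coeff (expo m) (form c) = c m := by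
  classical
  rw [form_eq, MvPolynomial.coeff_sum, Finset.sum_eq_single m]
  · rw [MvPolynomial.coeff_monomial, if_pos rfl]
  · intro m' _ hm'
    rw [MvPolynomial.coeff_monomial, if_neg]
    intro h
    exact hm' (expo_inj h)
  · intro h
    exact absurd (Finset.mem_univ _) h

theorem form_ne_zero {n d : ℕ} {R : Type*} [CommSemiring R] (c : Mon n d → R) (hc : c ≠ 0) :
    form c ≠ 0 := by
  intro h
  apply hc
  funext m
  rw [← coeff_form c m, h]
  simp

theorem totalDegree_form_le {n d : ℕ} {R : Type*} [CommSemiring R] (c : Mon n d → R) :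
    (form c).totalDegree ≤ d := by
  rw [form_eq]
  refine MvPolynomial.totalDegree_finsetSum_le fun m _ => ?_
  refine (MvPolynomial.totalDegree_monomial_le _ _).trans ?_
  rw [Finsupp.sum_fintype _ _ (fun i => rfl)]
  refine le_of_eq ?_
  simp only [expo, Finsupp.equivFunOnFinite_symm_apply_apply]
  exact m.2

/-- The zeros of a form over a finite field. -/
theorem card_zeros {n d : ℕ} {κ : Type*} [Field κ] [Fintype κ] (c : Mon n d → κ) (hc : c ≠ 0) :
    (Nat.card {x : Fin (n + 1) → κ // x ≠ 0 ∧ val c x = 0} : ℝ) ≤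
      d * (Fintype.card κ : ℝ) ^ n := by
  classical
  have hSZ := MvPolynomial.schwartz_zippel_totalDegree (form_ne_zero c hc)
    (Finset.univ : Finset κ)
  have hle : Nat.card {x : Fin (n + 1) → κ // x ≠ 0 ∧ val c x = 0} ≤
      #{f ∈ Fintype.piFinset fun _ : Fin (n + 1) => (Finset.univ : Finset κ) |
        MvPolynomial.eval f (form c) = 0} := by
    rw [Nat.card_eq_fintype_card, Fintype.card_subtype]
    refine Finset.card_le_card fun x hx => ?_
    rw [Finset.mem_filter] at hx ⊢
    refine ⟨Fintype.mem_piFinset.2 fun i => Finset.mem_univ _, ?_⟩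
    rw [eval_form]
    exact hx.2.2
  rw [Finset.card_univ] at hSZ
  have hq0 : (0 : ℝ) < Fintype.card κ := by exact_mod_cast Fintype.card_pos
  have h1 : ((#{f ∈ Fintype.piFinset fun _ : Fin (n + 1) => (Finset.univ : Finset κ) |
        MvPolynomial.eval f (form c) = 0} : ℕ) : ℝ) / (Fintype.card κ : ℝ) ^ (n + 1) ≤
      ((form c).totalDegree : ℝ) / Fintype.card κ := by
    have h2 := (NNRat.cast_le (K := ℝ)).mpr hSZ
    push_cast at h2
    exact h2
  rw [div_le_div_iff₀ (by positivity) hq0] at h1
  have h3 : ((form c).totalDegree : ℝ) ≤ d := by exact_mod_cast totalDegree_form_le c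
  have h4 : ((Nat.card {x : Fin (n + 1) → κ // x ≠ 0 ∧ val c x = 0} : ℕ) : ℝ) ≤
      ((#{f ∈ Fintype.piFinset fun _ : Fin (n + 1) => (Finset.univ : Finset κ) |
        MvPolynomial.eval f (form c) = 0} : ℕ) : ℝ) := by exact_mod_cast hle
  refine h4.trans ?_
  have h5 : ((#{f ∈ Fintype.piFinset fun _ : Fin (n + 1) => (Finset.univ : Finset κ) |
        MvPolynomial.eval f (form c) = 0} : ℕ) : ℝ) * Fintype.card κ ≤
      (d * (Fintype.card κ : ℝ) ^ n) * Fintype.card κ := by
    refine h1.trans ?_
    have h6 := mul_le_mul_of_nonneg_right h3 (pow_pos hq0 (n + 1)).le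
    refine h6.trans (le_of_eq ?_)
    ring
  exact le_of_mul_le_mul_right h5 hq0

/-- **Piece ZC.** -/
theorem t_ZC : Pool.Agent.K1H81.DC.S_ZC := by
  classical
  intro n d hn
  refine ⟨2 * d, by positivity, ?_⟩
  intro p hp k hk c hc
  have hfin : Finite (GaloisField p k) := inferInstance
  let _ := Fintype.ofFinite (GaloisField p k)
  have hq : Fintype.card (GaloisField p k) = p ^ k := by
    rw [← Nat.card_eq_fintype_card]
    exact GaloisField.card p k hk.ne'
  let ι : GaloisField p k →+* KK p := (IsAlgClosed.lift (R := ZMod p)).toRingHom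
  have h1 := Pool.Agent.K1H81.HV.card_cone (n := n) (d := d) k hk hq ι
    (algebraMap (ZMod p) (GaloisField p k)) c
  have hc' : (fun μ => algebraMap (ZMod p) (GaloisField p k) (c μ)) ≠ 0 := by
    intro h
    apply hc
    funext μ
    have h2 := congrFun h μ
    simpa using h2
  have h2 := card_zeros _ hc'
  rw [hq] at h2
  have h3 : Nat.card {v : NV p n // v ∈ PF p n k ∧ ev c v = 0} =
      ((PF p n k).filter fun v => ev c v = 0).card := by
    rw [← Nat.card_eq_finsetCard]
    exact Nat.card_congr (Equiv.subtypeEquivRight fun x => by rw [Finset.mem_filter])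
  rw [h1, h3] at h2
  have hp1 : (1 : ℝ) < p := by exact_mod_cast hp.out.one_lt
  have hp2 : (2 : ℝ) ≤ p := by exact_mod_cast hp.out.two_le
  have hpk : (2 : ℝ) ≤ (p : ℝ) ^ k := hp2.trans (le_self_pow₀ hp1.le hk.ne')
  rw [Nat.cast_mul, Nat.cast_sub (Nat.one_le_pow _ _ hp.out.pos)] at h2
  push_cast at h2
  obtain ⟨l, rfl⟩ : ∃ l, n = l + 1 := ⟨n - 1, by omega⟩
  rw [Nat.add_sub_cancel]
  set q : ℝ := (p : ℝ) ^ k with hqd
  set N : ℝ := (((PF p (l + 1) k).filter fun v => ev c v = 0).card : ℝ) with hN
  have hN0 : 0 ≤ N := by positivity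
  have hq0 : 0 < q := by linarith
  have h5 : N * q ≤ (2 * d * q ^ l) * q := by
    have h6 : q / 2 * N ≤ (q - 1) * N := mul_le_mul_of_nonneg_right (by linarith) hN0
    have h7 : q / 2 * N ≤ d * q ^ (l + 1) := h6.trans h2
    have h8 : N * q = 2 * (q / 2 * N) := by ring
    rw [h8]
    have h9 : 2 * d * q ^ l * q = 2 * (d * q ^ (l + 1)) := by ring
    rw [h9]
    linarith
  exact le_of_mul_le_mul_right h5 hq0

end Pool.Agent.K1H99.DC
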